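import Mathlib

/-!
MP_a9cc6a_nt, Q1.  With `a(n) = ∑_k C(n,k) C(n+k,k)` (central Delannoy numbers) and
`b(n) = v_3(a(n))`, the recursion of Q1 holds for every `n ≥ 0`.

Proof: `2^n a(n)` is the coefficient of `X^n` in `((X+2)(X+4))^n = ((X+3)^2-1)^n`, which gives
`2^n a(n) = ∑_j (-1)^(n-j) C(n,j) C(2j,n) 3^(2j-n)`; its term of lowest index dominates
`3`-adically, so `v_3(a(2m)) = v_3(C(2m,m))` and
`v_3(a(2m+1)) = 1 + v_3((2m+1) C(2m,m))`.
-/

namespace Pool.Agent.Results.MP_a9cc6a_nt.Valuation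

open Finset Polynomial

/-- `a(n) = ∑_{k=0}^n C(n,k) C(n+k,k)` -/
def a (n : ℕ) : ℕ := ∑ k ∈ range (n + 1), n.choose k * (n + k).choose k

/-- `b(n) = v_3(a(n))` -/
def b (n : ℕ) : ℕ := padicValNat 3 (a n)

lemma a_pos (n : ℕ) : 0 < a n := by
  unfold a
  refine sum_pos' (fun _ _ => Nat.zero_le _) ⟨0, by simp, by simp⟩

lemma expansion (n : ℕ) : (2 : ℤ) ^ n * (a n : ℤ) =
    ∑ j ∈ range (n + 1), (n.choose j : ℤ) * (-1) ^ (n - j) * (3 ^ (2 * j - n) *
      ((2 * j).choose n : ℤ)) := by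
  have key : ((X + C (2 : ℤ)) ^ n * (X + C 4) ^ n : ℤ[X]) = ((X + C 3) ^ 2 + C (-1)) ^ n := by
    rw [← mul_pow]
    congr 1
    have h4 : (C 4 : ℤ[X]) = C 2 + C 2 := by rw [← C_add]; norm_num
    have h3 : (C 3 : ℤ[X]) = C 2 + C 1 := by rw [← C_add]; norm_num
    have h2 : (C 2 : ℤ[X]) = 2 := rfl
    rw [h4, h3, h2, C_neg, C_1]
    ring
  have h1 : ((X + C (2 : ℤ)) ^ n * (X + C 4) ^ n : ℤ[X]) =
      ∑ k ∈ range (n + 1), (X + C 2) ^ (n + k) * C (2 ^ (n - k) * (n.choose k : ℤ)) := by
    have : (X + C 4 : ℤ[X]) = (X + C 2) + C 2 := by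
      rw [add_assoc, ← C_add]; norm_num
    rw [this, add_pow (X + C (2 : ℤ)) (C 2), mul_sum]
    refine sum_congr rfl (fun k _ => ?_)
    rw [pow_add, C_mul, C_pow]
    have : (C (n.choose k : ℤ) : ℤ[X]) = (n.choose k : ℤ[X]) := by simp
    rw [this]
    ring
  have h2 : (((X + C 3) ^ 2 + C (-1)) ^ n : ℤ[X]) =
      ∑ j ∈ range (n + 1), (X + C 3) ^ (2 * j) * C ((-1) ^ (n - j) * (n.choose j : ℤ)) := by
    rw [add_pow]
    refine sum_congr rfl (fun j _ => ?_)
    rw [← pow_mul, C_mul, C_pow]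
    have : (C (n.choose j : ℤ) : ℤ[X]) = (n.choose j : ℤ[X]) := by simp
    rw [this]
    ring
  rw [h1, h2] at key
  have hc := congrArg (fun p => coeff p n) key
  simp only [finsetSum_coeff, coeff_mul_C, coeff_X_add_C_pow] at hc
  rw [show (∑ j ∈ range (n + 1), (n.choose j : ℤ) * (-1) ^ (n - j) * (3 ^ (2 * j - n) *
      ((2 * j).choose n : ℤ))) = ∑ x ∈ range (n + 1), 3 ^ (2 * x - n) * ((2 * x).choose n : ℤ) *
      ((-1) ^ (n - x) * (n.choose x : ℤ)) from sum_congr rfl (fun j _ => by ring), ← hc]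
  unfold a
  push_cast
  rw [mul_sum]
  refine sum_congr rfl (fun k hk => ?_)
  have hk' : k ≤ n := by have := mem_range.mp hk; omega
  rw [show n + k - n = k by omega, Nat.choose_symm_of_eq_add (show n + k = k + n by ring)]
  have : (2 : ℤ) ^ n = 2 ^ k * 2 ^ (n - k) := by rw [← pow_add]; congr 1; omega
  rw [this]
  ring

/-- auxiliary integers `Q m i = (2m+2i)! m! / ((m+i)! (2m)! i!)` -/
def Q : ℕ → ℕ → ℕ
  | _, 0 => 1
  | 0, i + 1 => (2 * (i + 1)).choose (i + 1)
  | m + 1, i + 1 => Q m (i + 1) + 4 * Q (m + 1) i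

lemma Q_fact (m i : ℕ) : Q m i * ((m + i).factorial * (2 * m).factorial * i.factorial) =
    (2 * m + 2 * i).factorial * m.factorial := by
  induction m generalizing i with
  | zero =>
    cases i with
    | zero => simp [Q]
    | succ i =>
      unfold Q
      have := Nat.choose_mul_factorial_mul_factorial (show i + 1 ≤ 2 * (i + 1) by omega)
      rw [show 2 * (i + 1) - (i + 1) = i + 1 by omega] at this
      simp only [zero_add, mul_zero, Nat.factorial_zero, mul_one]
      rw [← this]; ring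
  | succ m ihm =>
    induction i with
    | zero => unfold Q; simp only [add_zero, mul_zero, Nat.factorial_zero, one_mul, mul_one]; ring
    | succ i ihi =>
      unfold Q
      have h1 := ihm (i + 1)
      have e1 : (m + 1 + (i + 1)).factorial = (m + i + 2) * (m + i + 1).factorial := by
        rw [show m + 1 + (i + 1) = (m + i + 1) + 1 by ring, Nat.factorial_succ]
      have e2 : (2 * (m + 1)).factorial = (2 * m + 2) * ((2 * m + 1) * (2 * m).factorial) := by
        rw [show 2 * (m + 1) = (2 * m + 1) + 1 by ring, Nat.factorial_succ, Nat.factorial_succ]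
      have e3 : (2 * (m + 1) + 2 * (i + 1)).factorial =
          (2 * m + 2 * i + 4) * ((2 * m + 2 * i + 3) * (2 * m + 2 * i + 2).factorial) := by
        rw [show 2 * (m + 1) + 2 * (i + 1) = (2 * m + 2 * i + 2) + 1 + 1 by ring,
          Nat.factorial_succ, Nat.factorial_succ]
      rw [show 2 * m + 2 * (i + 1) = 2 * m + 2 * i + 2 by ring,
        show m + (i + 1) = m + i + 1 by ring] at h1
      rw [show m + 1 + i = m + i + 1 by ring,
        show 2 * (m + 1) + 2 * i = 2 * m + 2 * i + 2 by ring, e2] at ihi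
      rw [e1, e2, e3, Nat.factorial_succ m, Nat.factorial_succ i]
      rw [Nat.factorial_succ i] at h1
      rw [Nat.factorial_succ m] at ihi
      zify at h1 ihi ⊢
      linear_combination ((m : ℤ) + i + 2) * (2 * m + 2) * (2 * m + 1) * h1 +
        4 * ((m : ℤ) + i + 2) * (i + 1) * ihi

lemma term_even (m i : ℕ) (hi : i ≤ m) :
    (2 * m).choose (m + i) * (2 * (m + i)).choose (2 * m) * (2 * i).choose i =
      m.choose i * Q m i * (2 * m).choose m := by
  have f0 : ∀ k : ℕ, 0 < k.factorial := Nat.factorial_pos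
  have c1 := Nat.choose_mul_factorial_mul_factorial (show m + i ≤ 2 * m by omega)
  have c2 := Nat.choose_mul_factorial_mul_factorial (show 2 * m ≤ 2 * (m + i) by omega)
  have c3 := Nat.choose_mul_factorial_mul_factorial (show i ≤ 2 * i by omega)
  have c4 := Nat.choose_mul_factorial_mul_factorial hi
  have c5 := Nat.choose_mul_factorial_mul_factorial (show m ≤ 2 * m by omega)
  have q := Q_fact m i
  rw [show 2 * m - (m + i) = m - i by omega] at c1
  rw [show 2 * (m + i) - 2 * m = 2 * i by omega] at c2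
  rw [show 2 * i - i = i by omega] at c3
  rw [show 2 * m - m = m by omega] at c5
  rw [show 2 * m + 2 * i = 2 * (m + i) by ring] at q
  have hpos : 0 < (m + i).factorial * (m - i).factorial * ((2 * m).factorial *
      (2 * i).factorial) * (i.factorial * i.factorial) * (m.factorial * m.factorial) := by
    have := f0 (m + i); have := f0 (m - i); have := f0 (2 * m); have := f0 (2 * i)
    have := f0 i; have := f0 m
    positivity
  apply Nat.eq_of_mul_eq_mul_right hpos
  calc (2 * m).choose (m + i) * (2 * (m + i)).choose (2 * m) * (2 * i).choose i *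
        ((m + i).factorial * (m - i).factorial * ((2 * m).factorial *
      (2 * i).factorial) * (i.factorial * i.factorial) * (m.factorial * m.factorial))
      = ((2 * m).choose (m + i) * (m + i).factorial * (m - i).factorial) *
        ((2 * (m + i)).choose (2 * m) * (2 * m).factorial * (2 * i).factorial) *
        ((2 * i).choose i * i.factorial * i.factorial) * (m.factorial * m.factorial) := by ring
    _ = (2 * m).factorial * (2 * (m + i)).factorial * (2 * i).factorial *
        (m.factorial * m.factorial) := by rw [c1, c2, c3]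
    _ = (m.choose i * i.factorial * (m - i).factorial) *
        (Q m i * ((m + i).factorial * (2 * m).factorial * i.factorial)) *
        ((2 * m).choose m * m.factorial * m.factorial) * (2 * i).factorial := by
        rw [c4, c5, q]; ring
    _ = _ := by ring

lemma term_odd (m i : ℕ) (hi : i ≤ m) :
    (2 * m + 1).choose (m + 1 + i) * (2 * (m + 1 + i)).choose (2 * m + 1) *
      ((2 * i + 1) * (2 * i).choose i) =
      m.choose i * Q (m + 1) i * (2 * ((2 * m + 1) * (2 * m).choose m)) := by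
  have f0 : ∀ k : ℕ, 0 < k.factorial := Nat.factorial_pos
  have c1 := Nat.choose_mul_factorial_mul_factorial (show m + 1 + i ≤ 2 * m + 1 by omega)
  have c2 := Nat.choose_mul_factorial_mul_factorial (show 2 * m + 1 ≤ 2 * (m + 1 + i) by omega)
  have c3 := Nat.choose_mul_factorial_mul_factorial (show i ≤ 2 * i by omega)
  have c4 := Nat.choose_mul_factorial_mul_factorial hi
  have c5 := Nat.choose_mul_factorial_mul_factorial (show m ≤ 2 * m by omega)
  have q := Q_fact (m + 1) i
  rw [show 2 * m + 1 - (m + 1 + i) = m - i by omega] at c1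
  rw [show 2 * (m + 1 + i) - (2 * m + 1) = 2 * i + 1 by omega] at c2
  rw [show 2 * i - i = i by omega] at c3
  rw [show 2 * m - m = m by omega] at c5
  rw [show 2 * (m + 1) + 2 * i = 2 * (m + 1 + i) by ring] at q
  have g1 : (2 * i + 1).factorial = (2 * i + 1) * (2 * i).factorial := Nat.factorial_succ _
  have g2 : (2 * m + 1).factorial = (2 * m + 1) * (2 * m).factorial := Nat.factorial_succ _
  have g3 : (2 * (m + 1)).factorial = (2 * m + 2) * (2 * m + 1).factorial := Nat.factorial_succ _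
  have g4 : (m + 1).factorial = (m + 1) * m.factorial := Nat.factorial_succ _
  have hpos : 0 < (m + 1 + i).factorial * (m - i).factorial * ((2 * m + 1).factorial *
      (2 * i).factorial) * (i.factorial * i.factorial) * ((m + 1).factorial * m.factorial) := by
    have := f0 (m + 1 + i); have := f0 (m - i); have := f0 (2 * m + 1); have := f0 (2 * i)
    have := f0 i; have := f0 m; have := f0 (m + 1)
    positivity
  apply Nat.eq_of_mul_eq_mul_right hpos
  calc (2 * m + 1).choose (m + 1 + i) * (2 * (m + 1 + i)).choose (2 * m + 1) *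
      ((2 * i + 1) * (2 * i).choose i) *
        ((m + 1 + i).factorial * (m - i).factorial * ((2 * m + 1).factorial *
      (2 * i).factorial) * (i.factorial * i.factorial) * ((m + 1).factorial * m.factorial))
      = ((2 * m + 1).choose (m + 1 + i) * (m + 1 + i).factorial * (m - i).factorial) *
        ((2 * (m + 1 + i)).choose (2 * m + 1) * (2 * m + 1).factorial *
          ((2 * i + 1) * (2 * i).factorial)) *
        ((2 * i).choose i * i.factorial * i.factorial) * ((m + 1).factorial * m.factorial) := by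
        ring
    _ = (2 * m + 1).factorial * (2 * (m + 1 + i)).factorial * (2 * i).factorial *
        ((m + 1).factorial * m.factorial) := by rw [← g1, c1, c2, c3]
    _ = (m.choose i * i.factorial * (m - i).factorial) *
        (Q (m + 1) i * ((m + 1 + i).factorial * (2 * (m + 1)).factorial * i.factorial)) *
        ((2 * m + 1) * ((2 * m).choose m * m.factorial * m.factorial)) * (2 * i).factorial := by
        rw [c4, c5, q, g2]; ring
    _ = _ := by rw [g3, g4]; ring

lemma val_central_lt (i : ℕ) (hi : 1 ≤ i) : padicValNat 3 ((2 * i).choose i) < 2 * i := by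
  have h1 : 3 ^ padicValNat 3 ((2 * i).choose i) ∣ (2 * i).choose i := pow_padicValNat_dvd
  have h2 := Nat.le_of_dvd (Nat.choose_pos (by omega)) h1
  have h3 := Nat.choose_le_two_pow (2 * i) i
  have h4 : 2 ^ (2 * i) < 3 ^ (2 * i) := Nat.pow_lt_pow_left (by norm_num) (by omega)
  exact (Nat.pow_lt_pow_iff_right (by norm_num : 1 < 3)).mp (by omega)

lemma odd_bound (i : ℕ) (hi : 1 ≤ i) : (2 * i + 1) * (2 * i).choose i < 9 ^ i := by
  induction i, hi using Nat.le_induction with
  | base => decide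
  | succ i hi ih =>
    have h := Nat.succ_mul_centralBinom_succ i
    rw [Nat.centralBinom_eq_two_mul_choose, Nat.centralBinom_eq_two_mul_choose] at h
    have : (i + 1) * ((2 * (i + 1) + 1) * (2 * (i + 1)).choose (i + 1)) < (i + 1) * 9 ^ (i + 1) := by
      calc (i + 1) * ((2 * (i + 1) + 1) * (2 * (i + 1)).choose (i + 1))
          = (2 * (i + 1) + 1) * ((i + 1) * (2 * (i + 1)).choose (i + 1)) := by ring
        _ = (2 * (2 * (i + 1) + 1)) * ((2 * i + 1) * (2 * i).choose i) := by rw [h]; ring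
        _ ≤ (9 * (i + 1)) * ((2 * i + 1) * (2 * i).choose i) :=
            Nat.mul_le_mul_right _ (by omega)
        _ < (9 * (i + 1)) * 9 ^ i := Nat.mul_lt_mul_of_pos_left ih (by omega)
        _ = (i + 1) * 9 ^ (i + 1) := by ring
    exact Nat.lt_of_mul_lt_mul_left this

lemma val_central_lt' (i : ℕ) (hi : 1 ≤ i) :
    padicValNat 3 ((2 * i + 1) * (2 * i).choose i) < 2 * i := by
  have h1 : 3 ^ padicValNat 3 ((2 * i + 1) * (2 * i).choose i) ∣
    (2 * i + 1) * (2 * i).choose i := pow_padicValNat_dvd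
  have h2 := Nat.le_of_dvd (Nat.mul_pos (by omega) (Nat.choose_pos (by omega))) h1
  have h3 := odd_bound i hi
  have h4 : (9 : ℕ) ^ i = 3 ^ (2 * i) := by rw [pow_mul]; norm_num
  exact (Nat.pow_lt_pow_iff_right (by norm_num : 1 < 3)).mp (by omega)

lemma val_of_congr (k a c : ℕ) (ε : ℤ) (hε : ε = 1 ∨ ε = -1) (ha : 0 < a) (hc : 0 < c)
    (h : (3 : ℤ) ^ (padicValNat 3 c + 1) ∣ 2 ^ k * (a : ℤ) - ε * c) :
    padicValNat 3 a = padicValNat 3 c := by
  have key : ∀ m ≤ padicValNat 3 c + 1, (3 ^ m ∣ a ↔ 3 ^ m ∣ c) := by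
    intro m hm
    have h1 : (3 : ℤ) ^ m ∣ 2 ^ k * (a : ℤ) - ε * c := dvd_trans (pow_dvd_pow 3 hm) h
    have h2 := dvd_iff_dvd_of_dvd_sub h1
    have h3 : (3 : ℤ) ^ m ∣ 2 ^ k * (a : ℤ) ↔ 3 ^ m ∣ a := by
      have hcop : IsCoprime ((3 : ℤ) ^ m) (2 ^ k) :=
        IsCoprime.pow (by rw [Int.isCoprime_iff_gcd_eq_one]; norm_num)
      constructor
      · intro hh
        have := hcop.dvd_of_dvd_mul_left hh
        exact_mod_cast this
      · intro hh
        have : (3 : ℤ) ^ m ∣ (a : ℤ) := by exact_mod_cast hh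
        exact Dvd.dvd.mul_left this _
    have h4 : (3 : ℤ) ^ m ∣ ε * c ↔ 3 ^ m ∣ c := by
      rcases hε with rfl | rfl
      · rw [one_mul]; exact_mod_cast Iff.rfl
      · rw [neg_one_mul, dvd_neg]; exact_mod_cast Iff.rfl
    rw [← h3, h2, h4]
  have le1 : padicValNat 3 c ≤ padicValNat 3 a := by
    rw [← padicValNat_dvd_iff_le ha.ne', key _ (by omega), padicValNat_dvd_iff_le hc.ne']
  have le2 : ¬ (padicValNat 3 c + 1 ≤ padicValNat 3 a) := by
    rw [← padicValNat_dvd_iff_le ha.ne', key _ (by omega), padicValNat_dvd_iff_le hc.ne']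
    omega
  omega

lemma central_pos (m : ℕ) : 0 < (2 * m).choose m := Nat.choose_pos (by omega)

lemma dvd_even (m i : ℕ) (hi : i ≤ m) (h1 : 1 ≤ i) :
    3 ^ (padicValNat 3 ((2 * m).choose m) + 1) ∣
      9 ^ i * ((2 * m).choose (m + i) * (2 * (m + i)).choose (2 * m)) := by
  have hT := term_even m i hi
  have c1 : 0 < (2 * m).choose (m + i) := Nat.choose_pos (by omega)
  have c2 : 0 < (2 * (m + i)).choose (2 * m) := Nat.choose_pos (by omega)
  have c3 := central_pos i
  have hne : (2 * m).choose (m + i) * (2 * (m + i)).choose (2 * m) ≠ 0 := by positivity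
  have hd : 3 ^ padicValNat 3 ((2 * m).choose m) ∣
      (2 * m).choose (m + i) * (2 * (m + i)).choose (2 * m) * (2 * i).choose i := by
    rw [hT]
    exact Dvd.dvd.mul_left pow_padicValNat_dvd _
  have hle := (padicValNat_dvd_iff_le (mul_ne_zero hne c3.ne')).mp hd
  rw [padicValNat.mul hne c3.ne'] at hle
  have hlt := val_central_lt i h1
  rw [padicValNat_dvd_iff_le (mul_ne_zero (by positivity) hne),
    padicValNat.mul (by positivity) hne, show (9 : ℕ) ^ i = 3 ^ (2 * i) by
      rw [pow_mul]; norm_num, padicValNat.prime_pow]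
  omega

lemma dvd_odd (m i : ℕ) (hi : i ≤ m) (h1 : 1 ≤ i) :
    3 ^ (padicValNat 3 (3 * (2 * ((2 * m + 1) * (2 * m).choose m))) + 1) ∣
      3 ^ (2 * i + 1) * ((2 * m + 1).choose (m + 1 + i) *
        (2 * (m + 1 + i)).choose (2 * m + 1)) := by
  have hT := term_odd m i hi
  have c1 : 0 < (2 * m + 1).choose (m + 1 + i) := Nat.choose_pos (by omega)
  have c2 : 0 < (2 * (m + 1 + i)).choose (2 * m + 1) := Nat.choose_pos (by omega)
  have c3 : 0 < (2 * i + 1) * (2 * i).choose i := Nat.mul_pos (by omega) (central_pos i)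
  have c4 : 0 < 2 * ((2 * m + 1) * (2 * m).choose m) :=
    Nat.mul_pos (by omega) (Nat.mul_pos (by omega) (central_pos m))
  have hne : (2 * m + 1).choose (m + 1 + i) * (2 * (m + 1 + i)).choose (2 * m + 1) ≠ 0 := by
    positivity
  have hd : 3 ^ padicValNat 3 (2 * ((2 * m + 1) * (2 * m).choose m)) ∣
      (2 * m + 1).choose (m + 1 + i) * (2 * (m + 1 + i)).choose (2 * m + 1) *
        ((2 * i + 1) * (2 * i).choose i) := by
    rw [hT]
    exact Dvd.dvd.mul_left pow_padicValNat_dvd _
  have hle := (padicValNat_dvd_iff_le (mul_ne_zero hne c3.ne')).mp hd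
  rw [padicValNat.mul hne c3.ne'] at hle
  have hlt := val_central_lt' i h1
  have h33 : padicValNat 3 3 = 1 := padicValNat_self
  rw [padicValNat_dvd_iff_le (mul_ne_zero (by positivity) hne),
    padicValNat.mul (by positivity) hne, padicValNat.prime_pow,
    padicValNat.mul (by norm_num) c4.ne', h33]
  omega

lemma sign_or (k : ℕ) : ((-1 : ℤ) ^ k = 1 ∨ (-1 : ℤ) ^ k = -1) := neg_one_pow_eq_or ℤ k

lemma b_even (m : ℕ) : b (2 * m) = padicValNat 3 ((2 * m).choose m) := by
  unfold b
  apply val_of_congr (2 * m) _ _ ((-1) ^ m) (sign_or m) (a_pos _) (central_pos m)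
  have hm : m ∈ range (2 * m + 1) := mem_range.mpr (by omega)
  rw [expansion, ← add_sum_erase _ _ hm, show 2 * m - m = m by omega, Nat.sub_self,
    Nat.choose_self]
  have : ((2 * m).choose m : ℤ) * (-1) ^ m * (3 ^ 0 * ((1 : ℕ) : ℤ)) =
    (-1) ^ m * ((2 * m).choose m : ℤ) := by push_cast; ring
  rw [this, add_sub_cancel_left]
  apply dvd_sum
  intro j hj
  have hj1 : j ≠ m := (mem_erase.mp hj).1
  have hj2 : j < 2 * m + 1 := mem_range.mp (mem_erase.mp hj).2
  rcases Nat.lt_or_ge j m with hlt | hge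
  · rw [Nat.choose_eq_zero_of_lt (show 2 * j < 2 * m by omega)]
    simp
  · obtain ⟨i, rfl⟩ := Nat.exists_eq_add_of_le hge
    have hd := dvd_even m i (by omega) (by omega)
    have hd' : (3 : ℤ) ^ (padicValNat 3 ((2 * m).choose m) + 1) ∣
      9 ^ i * (((2 * m).choose (m + i) : ℤ) * ((2 * (m + i)).choose (2 * m) : ℤ)) := by
      exact_mod_cast hd
    rw [show 2 * (m + i) - 2 * m = 2 * i by omega, pow_mul]
    norm_num
    obtain ⟨w, hw⟩ := hd'
    refine ⟨w * (-1) ^ (2 * m - (m + i)), ?_⟩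
    linear_combination (-1) ^ (2 * m - (m + i)) * hw

lemma b_odd' (m : ℕ) : b (2 * m + 1) =
    padicValNat 3 (3 * (2 * ((2 * m + 1) * (2 * m).choose m))) := by
  have c4 : 0 < 3 * (2 * ((2 * m + 1) * (2 * m).choose m)) :=
    Nat.mul_pos (by omega) (Nat.mul_pos (by omega) (Nat.mul_pos (by omega) (central_pos m)))
  unfold b
  apply val_of_congr (2 * m + 1) _ _ ((-1) ^ m) (sign_or m) (a_pos _) c4
  have hm : m + 1 ∈ range (2 * m + 1 + 1) := mem_range.mpr (by omega)
  have h0 := term_odd m 0 (by omega)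
  simp only [add_zero, mul_zero, zero_add, Nat.choose_self, mul_one, one_mul,
    Nat.choose_zero_right, Q] at h0
  have h0' : ((2 * m + 1).choose (m + 1) : ℤ) * ((2 * (m + 1)).choose (2 * m + 1) : ℤ) =
    2 * ((2 * m + 1) * ((2 * m).choose m : ℤ)) := by exact_mod_cast h0
  rw [expansion, ← add_sum_erase _ _ hm, show 2 * m + 1 - (m + 1) = m by omega,
    show 2 * (m + 1) - (2 * m + 1) = 1 by omega]
  have : ((2 * m + 1).choose (m + 1) : ℤ) * (-1) ^ m *
      (3 ^ 1 * ((2 * (m + 1)).choose (2 * m + 1) : ℤ)) =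
      (-1) ^ m * ((3 * (2 * ((2 * m + 1) * (2 * m).choose m)) : ℕ) : ℤ) := by
    push_cast
    linear_combination 3 * (-1) ^ m * h0'
  rw [this, add_sub_cancel_left]
  apply dvd_sum
  intro j hj
  have hj1 : j ≠ m + 1 := (mem_erase.mp hj).1
  have hj2 : j < 2 * m + 1 + 1 := mem_range.mp (mem_erase.mp hj).2
  rcases Nat.lt_or_ge j (m + 1) with hlt | hge
  · rw [Nat.choose_eq_zero_of_lt (show 2 * j < 2 * m + 1 by omega)]
    simp
  · obtain ⟨i, rfl⟩ := Nat.exists_eq_add_of_le hge
    have hd := dvd_odd m i (by omega) (by omega)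
    have hd' : (3 : ℤ) ^ (padicValNat 3 (3 * (2 * ((2 * m + 1) * (2 * m).choose m))) + 1) ∣
      3 ^ (2 * i + 1) * (((2 * m + 1).choose (m + 1 + i) : ℤ) *
        ((2 * (m + 1 + i)).choose (2 * m + 1) : ℤ)) := by
      exact_mod_cast hd
    rw [show 2 * (m + 1 + i) - (2 * m + 1) = 2 * i + 1 by omega]
    obtain ⟨w, hw⟩ := hd'
    refine ⟨w * (-1) ^ (2 * m + 1 - (m + 1 + i)), ?_⟩
    linear_combination (-1) ^ (2 * m + 1 - (m + 1 + i)) * hw

/-- `c(m) = v_3(C(2m,m))` -/
def cc (m : ℕ) : ℕ := padicValNat 3 ((2 * m).choose m)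

/-- `e(m) = v_3(2m+1)` -/
def ee (m : ℕ) : ℕ := padicValNat 3 (2 * m + 1)

lemma b_odd (m : ℕ) : b (2 * m + 1) = 1 + ee m + cc m := by
  rw [b_odd']
  have c := (central_pos m).ne'
  unfold ee cc
  have h33 : padicValNat 3 3 = 1 := padicValNat_self
  have h32 : padicValNat 3 2 = 0 := padicValNat.eq_zero_of_not_dvd (by norm_num)
  rw [padicValNat.mul (by norm_num) (mul_ne_zero (by norm_num) (mul_ne_zero (by omega) c)),
    padicValNat.mul (by norm_num) (mul_ne_zero (by omega) c),
    padicValNat.mul (by omega) c, h33, h32]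
  omega

lemma cc_fact (m : ℕ) : cc m + 2 * padicValNat 3 m.factorial =
    padicValNat 3 (2 * m).factorial := by
  have c := (central_pos m).ne'
  have h := Nat.choose_mul_factorial_mul_factorial (show m ≤ 2 * m by omega)
  rw [show 2 * m - m = m by omega] at h
  have h2 := congrArg (padicValNat 3) h
  rw [padicValNat.mul (mul_ne_zero c (Nat.factorial_ne_zero _)) (Nat.factorial_ne_zero _),
    padicValNat.mul c (Nat.factorial_ne_zero _)] at h2
  unfold cc
  omega

lemma fact3 (m r : ℕ) (hr : r < 3) : padicValNat 3 (3 * m + r).factorial =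
    padicValNat 3 m.factorial + m := by
  rw [padicValNat_factorial_mul_add m hr, padicValNat_factorial_mul]

lemma cc0 (m : ℕ) : cc (3 * m) = cc m := by
  have h1 := cc_fact (3 * m)
  have h2 := cc_fact m
  have h3 := fact3 m 0 (by norm_num)
  have h4 := fact3 (2 * m) 0 (by norm_num)
  rw [show 3 * (2 * m) + 0 = 2 * (3 * m) by ring] at h4
  rw [add_zero] at h3
  omega

lemma cc1 (m : ℕ) : cc (3 * m + 1) = cc m := by
  have h1 := cc_fact (3 * m + 1)
  have h2 := cc_fact m
  have h3 := fact3 m 1 (by norm_num)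
  have h4 := fact3 (2 * m) 2 (by norm_num)
  rw [show 3 * (2 * m) + 2 = 2 * (3 * m + 1) by ring] at h4
  omega

lemma cc2 (m : ℕ) : cc (3 * m + 2) = cc m + 1 + ee m := by
  have h1 := cc_fact (3 * m + 2)
  have h2 := cc_fact m
  have h3 := fact3 m 2 (by norm_num)
  have h4 := fact3 (2 * m + 1) 1 (by norm_num)
  rw [show 3 * (2 * m + 1) + 1 = 2 * (3 * m + 2) by ring, Nat.factorial_succ,
    padicValNat.mul (by omega) (Nat.factorial_ne_zero _)] at h4
  unfold ee
  omega

lemma ee1 (m : ℕ) : ee (3 * m + 1) = 1 + ee m := by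
  unfold ee
  rw [show 2 * (3 * m + 1) + 1 = 3 * (2 * m + 1) by ring,
    padicValNat.mul (by norm_num) (by omega), padicValNat_self]

lemma ee0 (m : ℕ) : ee (3 * m) = 0 := by
  unfold ee
  exact padicValNat.eq_zero_of_not_dvd (by omega)

lemma ee2 (m : ℕ) : ee (3 * m + 2) = 0 := by
  unfold ee
  exact padicValNat.eq_zero_of_not_dvd (by omega)

/-- The recursion of Q1 holds for every `n ≥ 0`. -/
theorem result : ∀ n : ℕ, b n =
    if n % 3 = 1 then b (n / 9) + 1 else b (n / 3) + (n / 3) % 2 := by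
  have bE : ∀ m, b (2 * m) = cc m := b_even
  have bO := b_odd
  intro n
  split_ifs with h
  · obtain ⟨u, r, hr, rfl⟩ : ∃ u r, r < 18 ∧ n = 18 * u + r :=
      ⟨n / 18, n % 18, by omega, by omega⟩
    have hr' : r = 1 ∨ r = 4 ∨ r = 7 ∨ r = 10 ∨ r = 13 ∨ r = 16 := by omega
    rcases hr' with rfl | rfl | rfl | rfl | rfl | rfl
    · rw [show 18 * u + 1 = 2 * (3 * (3 * u)) + 1 by ring, bO, ee0, cc0, cc0,
        show (2 * (3 * (3 * u)) + 1) / 9 = 2 * u by omega, bE]
      omega
    · rw [show 18 * u + 4 = 2 * (3 * (3 * u) + 2) by ring, bE, cc2, cc0, ee0,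
        show (2 * (3 * (3 * u) + 2)) / 9 = 2 * u by omega, bE]
    · rw [show 18 * u + 7 = 2 * (3 * (3 * u + 1)) + 1 by ring, bO, ee0, cc0, cc1,
        show (2 * (3 * (3 * u + 1)) + 1) / 9 = 2 * u by omega, bE]
      omega
    · rw [show 18 * u + 10 = 2 * (3 * (3 * u + 1) + 2) by ring, bE, cc2, cc1, ee1,
        show (2 * (3 * (3 * u + 1) + 2)) / 9 = 2 * u + 1 by omega, bO]
      omega
    · rw [show 18 * u + 13 = 2 * (3 * (3 * u + 2)) + 1 by ring, bO, ee0, cc0, cc2,
        show (2 * (3 * (3 * u + 2)) + 1) / 9 = 2 * u + 1 by omega, bO]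
      omega
    · rw [show 18 * u + 16 = 2 * (3 * (3 * u + 2) + 2) by ring, bE, cc2, cc2, ee2,
        show (2 * (3 * (3 * u + 2) + 2)) / 9 = 2 * u + 1 by omega, bO]
      omega
  · obtain ⟨u, r, hr, rfl⟩ : ∃ u r, r < 6 ∧ n = 6 * u + r :=
      ⟨n / 6, n % 6, by omega, by omega⟩
    have hr' : r = 0 ∨ r = 2 ∨ r = 3 ∨ r = 5 := by omega
    rcases hr' with rfl | rfl | rfl | rfl
    · rw [show 6 * u + 0 = 2 * (3 * u) by ring, bE, cc0,
        show (2 * (3 * u)) / 3 = 2 * u by omega, bE]
      omega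
    · rw [show 6 * u + 2 = 2 * (3 * u + 1) by ring, bE, cc1,
        show (2 * (3 * u + 1)) / 3 = 2 * u by omega, bE]
      omega
    · rw [show 6 * u + 3 = 2 * (3 * u + 1) + 1 by ring, bO, cc1, ee1,
        show (2 * (3 * u + 1) + 1) / 3 = 2 * u + 1 by omega, bO]
      omega
    · rw [show 6 * u + 5 = 2 * (3 * u + 2) + 1 by ring, bO, cc2, ee2,
        show (2 * (3 * u + 2) + 1) / 3 = 2 * u + 1 by omega, bO]
      omega

end Pool.Agent.Results.MP_a9cc6a_nt.Valuation
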